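import Pool.Agent.H76.SW.T

/-! Module A0 (MP_d2582e_lc): monotonicity of Good. -/

set_option autoImplicit false

namespace Pool.Agent.H18.SW

open Pool.Agent.H76.SW

theorem pf_A0 (h1 : U_q0_eq) : U_a0_mono := by
  intro A P Q L gs tr k bd nn bd' nn' hbd hnn pos pp δ h
  obtain ⟨hw, hs, hsz, ⟨F, a, b, hF⟩, hsat, hrest⟩ := h
  have : Nonempty (Fin nn) := ⟨a⟩
  obtain ⟨F', π, hF'⟩ := h1 tr F (fun _ _ => False) (fun c : Bool => if c = true then b else a) nn'
    (by simpa using hnn)
  refine ⟨hw, hs, hsz.trans hbd, ⟨F', π a, π b, ?_⟩, hsat, hrest⟩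
  intro V E u v
  have key := hF' V E (fun c : Bool => if c = true then v else u)
  rw [hF V E u v]
  constructor
  · rintro ⟨μ, h2, h3, h4⟩
    obtain ⟨ν, h5, h6⟩ := key.1 ⟨μ, h2, fun _ _ h => h.elim, fun c => by
      cases c
      · simpa using h3
      · simpa using h4⟩
    exact ⟨ν, h5, by simpa using h6 false, by simpa using h6 true⟩
  · rintro ⟨ν, h2, h3, h4⟩
    obtain ⟨μ, h5, -, h6⟩ := key.2 ⟨ν, h2, fun c => by
      cases c
      · simpa using h3
      · simpa using h4⟩
    exact ⟨μ, h5, by simpa using h6 false, by simpa using h6 true⟩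

end Pool.Agent.H18.SW
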