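import Pool.Agent.H76.SW.T

/-! Module D2 (MP_d2582e_lc): rooted tree decompositions without superfluous bags. -/

set_option autoImplicit false

namespace Pool.Agent.H18.SW

open Pool.Agent.H76.SW

theorem shrink {V : Type} {G : SimpleGraph V} {k : ℕ} (D : RD G k) (x y : D.N)
    (hxy : D.par x = some y) (hsub : D.B x ⊆ D.B y) :
    ∃ D' : RD G k, @Fintype.card D'.N D'.fin < @Fintype.card D.N D.fin := by
  classical
  letI := D.fin
  have hyx : y ≠ x := by
    intro h
    have := D.hrk x y hxy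
    rw [h] at this
    exact lt_irrefl _ this
  let r : D.N → {z : D.N // z ≠ x} := fun w => if hw : w = x then ⟨y, hyx⟩ else ⟨w, hw⟩
  have r1 : r x = ⟨y, hyx⟩ := by simp [r]
  have r2 : ∀ w (hw : w ≠ x), r w = ⟨w, hw⟩ := fun w hw => by simp [r, hw]
  have hB : ∀ z, D.B z ⊆ D.B (r z).1 := by
    intro z
    by_cases hz : z = x
    · rw [hz, r1]
      exact hsub
    · rw [r2 z hz]
  have hrank : ∀ v t, (∀ z, v ∈ D.B z → z = t ∨ ∃ w, D.par z = some w ∧ v ∈ D.B w) →
      ∀ n z, D.rk z = n → v ∈ D.B z → D.rk t ≤ D.rk z := by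
    intro v t ht n
    induction n using Nat.strong_induction_on with
    | _ n ih =>
      intro z hz hv
      rcases ht z hv with h | ⟨w, hw, hvw⟩
      · rw [h]
      · have h1 := D.hrk z w hw
        exact (ih (D.rk w) (hz ▸ h1) w rfl hvw).trans h1.le
  refine ⟨{
    N := {z : D.N // z ≠ x}
    fin := inferInstance
    par := fun z => (D.par z.1).map r
    rk := fun z => D.rk z.1
    hrk := ?_
    B := fun z => D.B z.1
    cov := ?_
    edge := ?_
    conn := ?_
    card := fun z => D.card z.1 }, ?_⟩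
  · intro z w' h
    obtain ⟨w, hw, rfl⟩ := Option.map_eq_some_iff.1 h
    have h1 := D.hrk z.1 w hw
    by_cases hwx : w = x
    · rw [hwx, r1]
      rw [hwx] at h1
      exact (D.hrk x y hxy).trans h1
    · rw [r2 w hwx]
      exact h1
  · intro v
    obtain ⟨z, hz⟩ := D.cov v
    exact ⟨r z, hB z hz⟩
  · intro u v huv
    obtain ⟨z, h1, h2⟩ := D.edge u v huv
    exact ⟨r z, hB z h1, hB z h2⟩
  · intro v
    obtain ⟨t, ht, htop⟩ := D.conn v
    have htx : t ≠ x := by
      intro h
      have h1 : v ∈ D.B y := hsub (h ▸ ht)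
      have h2 := hrank v t htop _ y rfl h1
      have h3 := D.hrk x y hxy
      rw [h] at h2
      exact absurd h3 (not_lt.2 h2)
    refine ⟨⟨t, htx⟩, ht, ?_⟩
    intro z hz
    rcases htop z.1 hz with h | ⟨w, hw, hvw⟩
    · exact Or.inl (Subtype.ext h)
    · exact Or.inr ⟨r w, by rw [hw]; rfl, hB w hvw⟩
  · exact Fintype.card_subtype_lt (p := fun z => z ≠ x) (x := x) (by simp)

theorem pf_D2 : U_d2_normal := by
  intro V G k h
  have key : ∀ n, ∀ D : RD G k, @Fintype.card D.N D.fin = n →
      ∃ D : RD G k, ∀ x y, D.par x = some y → ¬ D.B x ⊆ D.B y := by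
    intro n
    induction n using Nat.strong_induction_on with
    | _ n ih =>
      intro D hD
      by_cases hbad : ∃ x y, D.par x = some y ∧ D.B x ⊆ D.B y
      · obtain ⟨x, y, h1, h2⟩ := hbad
        obtain ⟨D', hD'⟩ := shrink D x y h1 h2
        exact ih _ (hD ▸ hD') D' rfl
      · push Not at hbad
        exact ⟨D, hbad⟩
  obtain ⟨D⟩ := h
  exact key _ D rfl

end Pool.Agent.H18.SW
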